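import Pool.Agent.H809Z.Ball.Basic

open scoped Topology ENNReal InnerProductSpace
open Filter Metric Set MeasureTheory

namespace Pool.Agent.H809Z.Ball

namespace DF

lemma nsq (z : ℂ) : ‖z‖ ^ 2 = z.re ^ 2 + z.im ^ 2 := by
  rw [Complex.sq_norm, Complex.normSq_apply]
  ring

lemma cont_Psi {n : ℕ} (S : St n) (η L : ℝ) (p : En n) {g : ℂ → En n} {s : Set ℂ}
    (hg : ContinuousOn g s) (hm : MapsTo g s S.Ω) :
    ContinuousOn (fun y => S.Psi η L p (g y)) s := by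
  have h1 : ContinuousOn (fun y => Real.log (S.δ (g y))) s :=
    (S.continuous_delta.comp_continuousOn hg).log fun y hy => (S.delta_pos (hm hy)).ne'
  have h2 : ContinuousOn (fun y => ‖g y - p‖ ^ 2) s := (hg.sub continuousOn_const).norm.pow 2
  exact Real.continuous_exp.comp_continuousOn
    (continuousOn_const.mul (h1.sub (continuousOn_const.mul h2)))

lemma Psi_pos {n : ℕ} (S : St n) (η L : ℝ) (p z : En n) : 0 < S.Psi η L p z := Real.exp_pos _

lemma root_le {n : ℕ} (S : St n) {η L a : ℝ} (hη : 0 < η) (hL : 0 ≤ L) (ha : 0 ≤ a) (p : En n)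
    {z : En n} (hz : z ∈ S.Ω) (h : a ≤ S.Psi η L p z) : a ^ η⁻¹ ≤ S.δ z := by
  have h1 := S.delta_pos hz
  have h2 : S.Psi η L p z ≤ S.δ z ^ η := by
    rw [Real.rpow_def_of_pos h1, St.Psi, Real.exp_le_exp]
    have : 0 ≤ η * (L * ‖z - p‖ ^ 2) := by positivity
    nlinarith
  calc a ^ η⁻¹ ≤ (S.δ z ^ η) ^ η⁻¹ := Real.rpow_le_rpow ha (h.trans h2) (by positivity)
    _ = S.δ z := Real.rpow_rpow_inv h1.le hη.ne'

end DF

theorem annulus {U : ℂ → ℝ} {c : ℂ} {r₁ r m : ℝ} (h1 : 0 < r₁) (h2 : r₁ < r) (h3 : 3 / 4 * r ^ 2 ≤ r₁ ^ 2) (hc : ContinuousOn U {x | r₁ ≤ ‖x - c‖ ∧ ‖x - c‖ < r}) (hpos : ∀ x, r₁ ≤ ‖x - c‖ → ‖x - c‖ < r → 0 ≤ U x) (hv : ∀ x, r₁ < ‖x - c‖ → ‖x - c‖ < r → Visc U x) (hm : ∀ x, ‖x - c‖ = r₁ → m ≤ U x) (hm0 : 0 ≤ m) : ∀ x, r₁ ≤ ‖x - c‖ → ‖x - c‖ < r → m / r ^ 2 * (r ^ 2 - ‖x - c‖ ^ 2) ≤ U x := by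
  intro x hx1 hx2
  rcases hm0.eq_or_lt with rfl | hm1
  · simpa using hpos x hx1 hx2
  have hr : 0 < r := h1.trans h2
  set l := m / r ^ 2 with hl
  have hl0 : 0 < l := by positivity
  have hl1 : l * r ^ 2 = m := by rw [hl]; field_simp
  obtain ⟨K, hK0, hK⟩ : ∃ K : ℝ, 0 < K ∧ K * r₁ ^ 2 = 2 := ⟨2 / r₁ ^ 2, by positivity, by field_simp⟩
  have key : ∀ r₂, ‖x - c‖ < r₂ → r₂ < r → l * (r₂ ^ 2 - ‖x - c‖ ^ 2) ≤ U x := by
    intro r₂ h4 h5
    have h6 : 0 < r₂ := (norm_nonneg _).trans_lt h4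
    have h7 : r₂ ^ 2 ≤ r ^ 2 := by gcongr
    set b : ℂ → ℝ := fun y => (r₂ ^ 2 - ‖y - c‖ ^ 2) + K * (r₂ ^ 2 - ‖y - c‖ ^ 2) ^ 2 with hb
    have hA : IsCompact {y : ℂ | r₁ ≤ ‖y - c‖ ∧ ‖y - c‖ ≤ r₂} := by
      have hn : Continuous fun y : ℂ => ‖y - c‖ := by fun_prop
      refine (isCompact_closedBall c r₂).of_isClosed_subset
        ((isClosed_le (continuous_const (y := r₁)) hn).inter
          (isClosed_le hn (continuous_const (y := r₂)))) fun y hy => ?_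
      rw [mem_closedBall, dist_eq_norm]
      exact hy.2
    have hW : ContinuousOn (fun y => U y - l * b y) {y : ℂ | r₁ ≤ ‖y - c‖ ∧ ‖y - c‖ ≤ r₂} :=
      (hc.mono fun y hy => ⟨hy.1, hy.2.trans_lt h5⟩).sub (by fun_prop)
    obtain ⟨y, ⟨hy1, hy2⟩, hmin⟩ := hA.exists_isMinOn ⟨x, hx1, h4.le⟩ hW
    have h8 : 0 ≤ U y - l * b y := by
      rcases hy1.eq_or_lt with h9 | h9
      · have h10 := hm y h9.symm
        have h11 : 0 ≤ r₂ ^ 2 - r₁ ^ 2 := by
          have : r₁ ^ 2 ≤ r₂ ^ 2 := by gcongr; exact h9.le.trans hy2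
          linarith
        have h12 : r₂ ^ 2 - r₁ ^ 2 ≤ r₁ ^ 2 / 3 := by linarith
        have h13 : K * (r₂ ^ 2 - r₁ ^ 2) ≤ 2 / 3 := by nlinarith
        have h14 : r₁ ^ 2 ≤ r ^ 2 := by gcongr
        have h15 : b y ≤ r ^ 2 := by
          simp only [hb, ← h9]
          nlinarith
        nlinarith
      rcases hy2.eq_or_lt with h10 | h10
      · have h11 := hpos y hy1 (hy2.trans_lt h5)
        simp only [hb, h10]
        simpa using h11
      exfalso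
      have h11 : ∀ v : ℂ, ∀ᶠ t : ℝ in 𝓝[>] 0, U y - l * b y ≤ U (y + t * v) - l * b (y + t * v) := by
        intro v
        have h12 : Tendsto (fun t : ℝ => ‖y + t * v - c‖) (𝓝[>] 0) (𝓝 ‖y - c‖) :=
          (Continuous.tendsto' (by fun_prop) _ _ (by simp)).mono_left nhdsWithin_le_nhds
        filter_upwards [h12.eventually (lt_mem_nhds h9), h12.eventually (gt_mem_nhds h10)]
          with t h13 h14 using hmin ⟨h13.le, h14.le⟩
      obtain ⟨t, h12, h13, h14, h15, h16, h17⟩ := ((hv y h9 (h10.trans h5) l hl0).and ((h11 1).and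
        ((h11 Complex.I).and ((h11 (-1)).and ((h11 (-Complex.I)).and self_mem_nhdsWithin))))).exists
      have ht : 0 < t := h17
      rw [mul_one] at h13
      rw [mul_neg, mul_one, ← sub_eq_add_neg] at h15
      rw [mul_neg, ← sub_eq_add_neg] at h16
      have h18 : b (y + t) + b (y + t * Complex.I) + b (y - t) + b (y - t * Complex.I) - 4 * b y =
          t ^ 2 * (-4 - 8 * K * (r₂ ^ 2 - ‖y - c‖ ^ 2) + 8 * K * ‖y - c‖ ^ 2) + 4 * K * t ^ 4 := by
        simp only [hb, DF.nsq]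
        simp
        ring
      have h19 : r₁ ^ 2 ≤ ‖y - c‖ ^ 2 := by gcongr
      have h20 : 2 ≤ -4 - 8 * K * (r₂ ^ 2 - ‖y - c‖ ^ 2) + 8 * K * ‖y - c‖ ^ 2 := by nlinarith
      have h21 : 0 < t ^ 2 := by positivity
      have h22 : 2 * t ^ 2 ≤
          b (y + t) + b (y + t * Complex.I) + b (y - t) + b (y - t * Complex.I) - 4 * b y := by
        have : 0 ≤ 4 * K * t ^ 4 := by positivity
        nlinarith
      have h23 := mul_le_mul_of_nonneg_left h22 hl0.le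
      have h24 := mul_pos hl0 h21
      linarith
    have h9 : U y - l * b y ≤ U x - l * b x := hmin ⟨hx1, h4.le⟩
    have h10 : 0 ≤ l * (K * (r₂ ^ 2 - ‖x - c‖ ^ 2) ^ 2) := by positivity
    simp only [hb] at h9 h8
    linarith
  have h4 : Tendsto (fun r₂ : ℝ => l * (r₂ ^ 2 - ‖x - c‖ ^ 2)) (𝓝[<] r)
      (𝓝 (l * (r ^ 2 - ‖x - c‖ ^ 2))) :=
    (Continuous.tendsto (by fun_prop) _).mono_left nhdsWithin_le_nhds
  refine le_of_tendsto h4 ?_
  filter_upwards [Ioo_mem_nhdsLT hx2] with r₂ h5 using key r₂ h5.1 h5.2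

theorem dfGlobal {n : ℕ} (S : St n) (hV : S.ViscPsi) (hH : S.Hopf) : S.DFGlobal := by
  obtain ⟨L, δ₁, hL, hδ, hV⟩ := hV
  obtain ⟨C', hC', hH⟩ := hH
  obtain ⟨R, hR1, hR⟩ := S.exists_radius
  obtain ⟨C, hC, hd⟩ := S.delta_le
  obtain ⟨Cr, hCr, hr⟩ := S.rho_le
  obtain ⟨η, hη0, hη1, hη2⟩ : ∃ η : ℝ, 0 < η ∧ η ≤ 3 / 4 ∧ 40 * η * L * R ^ 2 ≤ 1 := by
    refine ⟨min (3 / 4) (1 / (40 * L * R ^ 2)), by positivity, min_le_left _ _, ?_⟩
    have := min_le_right (3 / 4) (1 / (40 * L * R ^ 2))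
    rw [le_div_iff₀ (by positivity)] at this
    linarith
  obtain ⟨s, hs0, hs1, hs2⟩ : ∃ s : ℝ, 0 < s ∧ s ≤ 1 / 8 ∧ C * (C' * s) ≤ δ₁ := by
    refine ⟨min (1 / 8) (δ₁ / (C * C' + 1)), by positivity, min_le_left _ _, ?_⟩
    have h1 := min_le_right (1 / 8) (δ₁ / (C * C' + 1))
    have h2 : 0 < min (1 / 8) (δ₁ / (C * C' + 1)) := by positivity
    rw [le_div_iff₀ (by positivity)] at h1
    nlinarith
  obtain ⟨d, hd0, hφ⟩ := S.phi_bound (θ := 1 - s) (by linarith)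
  set m := Real.exp (η * (Real.log (d / Cr) - L * R ^ 2)) with hm
  have hm0 : 0 < m := Real.exp_pos _
  refine ⟨min (m ^ η⁻¹ / C) d, η⁻¹, by positivity, by positivity, fun w hw => ?_⟩
  have hw1 : ‖w‖ < 1 := mem_ball_zero_iff.mp hw
  have hp : 0 ≤ (1 - ‖w‖) ^ η⁻¹ := Real.rpow_nonneg (by linarith) _
  rcases le_or_gt ‖w‖ (1 - s) with h | h
  · have h1 := hφ w h
    have h2 : (1 - ‖w‖) ^ η⁻¹ ≤ 1 :=
      Real.rpow_le_one (by linarith) (by linarith [norm_nonneg w]) (by positivity)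
    calc _ ≤ d * 1 := mul_le_mul (min_le_right _ _) h2 hp hd0.le
      _ ≤ _ := by linarith
  have hw0 : 0 < ‖w‖ := by linarith
  set ζ : En n := ((‖w‖⁻¹ : ℝ) : ℂ) • w with hζ
  have hζ1 : ∀ x : ℂ, ‖x • ζ‖ = ‖x‖ := by
    intro x
    rw [norm_smul, hζ, norm_smul, Complex.norm_real, norm_inv, norm_norm, inv_mul_cancel₀ hw0.ne',
      mul_one]
  have hb : MapsTo (fun x : ℂ => x • ζ) (ball 0 1) (ball 0 1) := fun x hx => by
    rw [mem_ball_zero_iff] at hx ⊢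
    rwa [hζ1]
  have hg : DifferentiableOn ℂ (fun x : ℂ => S.φ (x • ζ)) (ball 0 1) :=
    S.hφ.comp (by fun_prop) hb
  have hgm : MapsTo (fun x : ℂ => S.φ (x • ζ)) (ball 0 1) S.Ω := S.mφ.comp hb
  have hn : ∀ z ∈ S.Ω, ‖z - 0‖ ^ 2 ≤ R ^ 2 := by
    intro z hz
    rw [sub_zero]
    gcongr
    exact hR z (S.mem_iff.mp hz).le
  have key := annulus (U := fun x => S.Psi η L 0 (S.φ (x • ζ))) (c := 0) (r₁ := 1 - s) (r := 1)
    (m := m) (by linarith) (by linarith) (by nlinarith)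
    ((DF.cont_Psi S η L 0 hg.continuousOn hgm).mono fun x hx => by
      simpa using hx.2)
    (fun x _ _ => (DF.Psi_pos S _ _ _ _).le) (fun x h1 h2 => by
      rw [sub_zero] at h1 h2
      have h3 : x ∈ ball (0 : ℂ) 1 := mem_ball_zero_iff.mpr h2
      refine hV η hη0 hη1 0 _ x (hg.analyticAt (isOpen_ball.mem_nhds h3)) (hgm h3) ?_ ?_
      · have h4 := hH _ (hb h3)
        simp only [hζ1] at h4
        calc _ ≤ C * -S.ρ (S.φ (x • ζ)) := hd _ (hgm h3)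
          _ ≤ C * (C' * (1 - ‖x‖)) := by gcongr
          _ ≤ C * (C' * s) := by gcongr; linarith
          _ ≤ δ₁ := hs2
      · refine le_trans ?_ hη2
        gcongr 40 * η * L * ?_
        exact hn _ (hgm h3))
    (fun x h1 => by
      rw [sub_zero] at h1
      have h3 : x ∈ ball (0 : ℂ) 1 := mem_ball_zero_iff.mpr (by linarith)
      have h4 := hφ (x • ζ) (by rw [hζ1, h1])
      have h5 := hr _ (hgm h3)
      have h6 : d / Cr ≤ S.δ (S.φ (x • ζ)) := by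
        rw [div_le_iff₀ hCr]
        linarith
      have h7 := Real.log_le_log (by positivity) h6
      have h8 := mul_le_mul_of_nonneg_left (hn _ (hgm h3)) hL.le
      rw [hm, St.Psi, Real.exp_le_exp]
      exact mul_le_mul_of_nonneg_left (by linarith) hη0.le)
    hm0.le (‖w‖ : ℂ) (by simpa using h.le) (by simpa using hw1)
  have h1 : (‖w‖ : ℂ) • ζ = w := by
    rw [hζ, smul_smul, ← Complex.ofReal_mul, mul_inv_cancel₀ hw0.ne']
    simp
  simp only [h1, sub_zero, Complex.norm_real, norm_norm, one_pow, div_one] at key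
  have h2 : m * (1 - ‖w‖) ≤ S.Psi η L 0 (S.φ w) :=
    le_trans (mul_le_mul_of_nonneg_left (by nlinarith) hm0.le) key
  have h3 := (DF.root_le S hη0 hL.le (mul_nonneg hm0.le (by linarith)) 0 (S.mφ hw) h2).trans
    (hd _ (S.mφ hw))
  rw [Real.mul_rpow hm0.le (by linarith)] at h3
  calc _ ≤ m ^ η⁻¹ / C * (1 - ‖w‖) ^ η⁻¹ := mul_le_mul_of_nonneg_right (min_le_left _ _) hp
    _ ≤ _ := by
      rw [div_mul_eq_mul_div, div_le_iff₀ hC]
      linarith

theorem dfLocal {n : ℕ} (S : St n) (hV : S.ViscPsi) : S.DFLocal := by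
  obtain ⟨L, δ₁, hL, hδ, hV⟩ := hV
  obtain ⟨C, hC, hd⟩ := S.delta_le
  intro p g hp hg hgm ht
  obtain ⟨a, ha0, ha1, ha2⟩ : ∃ a : ℝ, 0 < a ∧ a ≤ δ₁ ∧ 40 * (3 / 4) * L * a ^ 2 ≤ 1 := by
    refine ⟨min δ₁ (min 1 (1 / (30 * L))), by positivity, min_le_left _ _, ?_⟩
    have h1 := (min_le_right δ₁ _).trans (min_le_left 1 (1 / (30 * L)))
    have h2 := (min_le_right δ₁ _).trans (min_le_right 1 (1 / (30 * L)))
    have h3 : 0 < min δ₁ (min 1 (1 / (30 * L))) := by positivity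
    rw [le_div_iff₀ (by positivity)] at h2
    have h4 : 0 < min δ₁ (min 1 (1 / (30 * L))) * (30 * L) := by positivity
    nlinarith
  obtain ⟨ε, hε, hb⟩ := Metric.tendsto_nhdsWithin_nhds.1 ht a ha0
  obtain ⟨r, hr0, hr1, hr2⟩ : ∃ r : ℝ, 0 < r ∧ r ≤ 1 / 2 ∧ 2 * r ≤ ε :=
    ⟨min (1 / 2) (ε / 2), by positivity, min_le_left _ _, by linarith [min_le_right (1 / 2) (ε / 2)]⟩
  set c : ℂ := ((1 - r : ℝ) : ℂ) with hc
  have h1 : ∀ x : ℂ, ‖x - c‖ < r → x ∈ ball (0 : ℂ) 1 ∧ ‖g x - p‖ ≤ a := by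
    intro x hx
    have h2 : ‖c‖ = 1 - r := by rw [hc, Complex.norm_real, Real.norm_of_nonneg (by linarith)]
    have h3 : ‖c - 1‖ = r := by
      rw [hc, show ((1 - r : ℝ) : ℂ) - 1 = -(r : ℂ) by push_cast; ring, norm_neg, Complex.norm_real,
        Real.norm_of_nonneg hr0.le]
    have h4 := norm_add_le (x - c) c
    have h5 := norm_add_le (x - c) (c - 1)
    rw [sub_add_cancel] at h4
    rw [sub_add_sub_cancel] at h5
    have h6 : x ∈ ball (0 : ℂ) 1 := mem_ball_zero_iff.mpr (by linarith)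
    refine ⟨h6, ?_⟩
    rw [← dist_eq_norm]
    exact (hb h6 (by rw [dist_eq_norm]; linarith)).le
  have hU := DF.cont_Psi S (3 / 4) L p hg.continuousOn hgm
  obtain ⟨x0, -, hmin⟩ := (isCompact_sphere c (9 / 10 * r)).exists_isMinOn
    (NormedSpace.sphere_nonempty.2 (by positivity)) (hU.mono fun x hx =>
      (h1 x (by rw [mem_sphere, dist_eq_norm] at hx; linarith)).1)
  set m := S.Psi (3 / 4) L p (g x0) with hm
  have hm0 : 0 < m := DF.Psi_pos S _ _ _ _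
  have key := annulus (U := fun x => S.Psi (3 / 4) L p (g x)) (c := c) (r₁ := 9 / 10 * r) (r := r)
    (m := m) (by positivity) (by linarith) (by nlinarith) (hU.mono fun x hx => (h1 x hx.2).1)
    (fun x _ _ => (DF.Psi_pos S _ _ _ _).le) (fun x _ h2 => by
      obtain ⟨h3, h4⟩ := h1 x h2
      refine hV _ (by norm_num) le_rfl p g x (hg.analyticAt (isOpen_ball.mem_nhds h3)) (hgm h3)
        ((S.delta_le_dist hp.ge).trans (h4.trans ha1)) (le_trans ?_ ha2)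
      gcongr)
    (fun x hx => hmin (by rwa [mem_sphere, dist_eq_norm])) hm0.le
  refine ⟨(m / r) ^ (4 / 3 : ℝ) / C, by positivity, ?_⟩
  filter_upwards [Ioo_mem_nhdsLT (show 1 - r / 10 < 1 by linarith)] with t ⟨h2, h3⟩
  have h4 : ‖(t : ℂ) - c‖ = t - 1 + r := by
    rw [hc, ← Complex.ofReal_sub, Complex.norm_real, Real.norm_of_nonneg (by linarith)]
    ring
  have h5 := key t (by linarith) (by linarith)
  have h6 := (h1 t (by linarith)).1
  have h7 : m / r * (1 - t) ≤ S.Psi (3 / 4) L p (g t) := by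
    refine le_trans ?_ h5
    rw [h4, show m / r * (1 - t) = m / r ^ 2 * (r * (1 - t)) by field_simp]
    exact mul_le_mul_of_nonneg_left (by nlinarith) (by positivity)
  have h8 := (DF.root_le S (by norm_num) hL.le (mul_nonneg (by positivity) (by linarith)) p
    (hgm h6) h7).trans (hd _ (hgm h6))
  rw [Real.mul_rpow (by positivity) (by linarith), show ((3 / 4 : ℝ))⁻¹ = 4 / 3 by norm_num] at h8
  rw [div_mul_eq_mul_div, div_le_iff₀ hC]
  linarith

end Pool.Agent.H809Z.Ball
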